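import Pool.Agent.Y553.PL.Stm

/-!
# Project PL (helper553): the predicate `H` computes the hash function
-/

set_option autoImplicit false

namespace Pool.Agent.Y340.PL

open Pool.Agent.Results.MP_abe753_lc.PlusNotLocal
open Pool.Agent.Y553.PL

section

variable {V : Type} {G : CG V} {k l : ℕ} (P : Pres G k l)

include P in
theorem mem_a (i : Fin k) : P.α i ∈ G.colour 1 := P.α_bij.mapsTo (Set.mem_univ i)

include P in
theorem mem_b (i : Fin l) : P.β i ∈ G.colour 2 := P.β_bij.mapsTo (Set.mem_univ i)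

include P in
theorem mem_w (g : Fin k → Fin l) : P.w g ∈ G.colour 4 := P.w_bij.mapsTo (Set.mem_univ g)

include P in
theorem ex_a {a : V} (ha : a ∈ G.colour 1) : ∃ i, P.α i = a := by
  obtain ⟨i, -, hi⟩ := P.α_bij.surjOn ha
  exact ⟨i, hi⟩

include P in
theorem ex_b {a : V} (ha : a ∈ G.colour 2) : ∃ i, P.β i = a := by
  obtain ⟨i, -, hi⟩ := P.β_bij.surjOn ha
  exact ⟨i, hi⟩

include P in
theorem ex_w {a : V} (ha : a ∈ G.colour 4) : ∃ g, P.w g = a := by
  obtain ⟨i, -, hi⟩ := P.w_bij.surjOn ha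
  exact ⟨i, hi⟩

theorem first_iff (i : Fin k) : First G (P.α i) ↔ i.val = 0 := by
  constructor
  · rintro ⟨-, h⟩
    by_contra h0
    have hk : 0 < k := by have := i.isLt; omega
    refine h (P.α ⟨0, hk⟩) (mem_a P _) ((P.lt_iff _ _).2 ?_)
    rw [Fin.lt_def]
    exact Nat.pos_of_ne_zero h0
  · intro h
    refine ⟨mem_a P i, fun a' ha' hlt => ?_⟩
    obtain ⟨j, rfl⟩ := ex_a P ha'
    rw [P.lt_iff, Fin.lt_def] at hlt
    omega

theorem last_iff (i : Fin k) : Last G (P.α i) ↔ i.val + 1 = k := by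
  constructor
  · rintro ⟨-, h⟩
    by_contra h0
    have hk : k - 1 < k := by have := i.isLt; omega
    refine h (P.α ⟨k - 1, hk⟩) (mem_a P _) ((P.lt_iff _ _).2 ?_)
    rw [Fin.lt_def]
    have := i.isLt
    show i.val < k - 1
    omega
  · intro h
    refine ⟨mem_a P i, fun a' ha' hlt => ?_⟩
    obtain ⟨j, rfl⟩ := ex_a P ha'
    rw [P.lt_iff, Fin.lt_def] at hlt
    have := j.isLt
    omega

theorem cons_iff (i j : Fin k) : Cons G (P.α i) (P.α j) ↔ i.val + 1 = j.val := by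
  constructor
  · rintro ⟨-, -, h, h'⟩
    rw [P.lt_iff, Fin.lt_def] at h
    by_contra h0
    have hk : i.val + 1 < k := by have := j.isLt; omega
    refine h' (P.α ⟨i.val + 1, hk⟩) (mem_a P _) ⟨(P.lt_iff _ _).2 ?_, (P.lt_iff _ _).2 ?_⟩
    · rw [Fin.lt_def]
      show i.val < i.val + 1
      omega
    · rw [Fin.lt_def]
      show i.val + 1 < j.val
      omega
  · intro h
    refine ⟨mem_a P i, mem_a P j, (P.lt_iff _ _).2 (by rw [Fin.lt_def]; omega), ?_⟩
    rintro b hb ⟨h1, h2⟩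
    obtain ⟨b, rfl⟩ := ex_a P hb
    rw [P.lt_iff, Fin.lt_def] at h1 h2
    omega

theorem run_succ (z0 : Fin l) (q w : Fin k → Fin l) (i : Fin k) :
    run P.acc z0 q w (i.val + 1) = P.acc (run P.acc z0 q w i.val) (q i) (w i) := by
  rw [run, dif_pos i.isLt]

end

/-- The predicate `H` computes the hash function. -/
theorem t_HSEM : St_HSEM := by
  intro V G k l P hk z0 q w c
  constructor
  · rintro ⟨Z, hZ, hrun, a, hlast, harr⟩
    obtain ⟨g, rfl⟩ := ex_w P hZ
    obtain ⟨i, rfl⟩ := ex_a P hlast.1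
    rw [last_iff] at hlast
    rw [P.arr_iff] at harr
    have key : ∀ (m : ℕ) (hm : m < k), g ⟨m, hm⟩ = run P.acc z0 q w (m + 1) := by
      intro m
      induction m with
      | zero =>
        intro hm
        have h1 := hrun (P.α ⟨0, hm⟩) (mem_a P _) (P.β z0) (mem_b P _) (P.β (q ⟨0, hm⟩))
          (mem_b P _) (P.β (w ⟨0, hm⟩)) (mem_b P _) (P.β (g ⟨0, hm⟩)) (mem_b P _)
          (Or.inl ⟨(first_iff P _).2 rfl, rfl⟩) ((P.arr_iff _ _ _).2 rfl)
          ((P.arr_iff _ _ _).2 rfl) ((P.arr_iff _ _ _).2 rfl)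
        rw [P.acc_iff] at h1
        have h2 := run_succ P z0 q w ⟨0, hm⟩
        exact (h2.trans h1).symm
      | succ m ih =>
        intro hm
        have hm' : m < k := by omega
        have h1 := hrun (P.α ⟨m + 1, hm⟩) (mem_a P _) (P.β (g ⟨m, hm'⟩)) (mem_b P _)
          (P.β (q ⟨m + 1, hm⟩)) (mem_b P _) (P.β (w ⟨m + 1, hm⟩)) (mem_b P _)
          (P.β (g ⟨m + 1, hm⟩)) (mem_b P _)
          (Or.inr ⟨P.α ⟨m, hm'⟩, (cons_iff P _ _).2 rfl, (P.arr_iff _ _ _).2 rfl⟩)
          ((P.arr_iff _ _ _).2 rfl) ((P.arr_iff _ _ _).2 rfl) ((P.arr_iff _ _ _).2 rfl)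
        rw [P.acc_iff, ih hm'] at h1
        have h2 := run_succ P z0 q w ⟨m + 1, hm⟩
        exact (h2.trans h1).symm
    have h3 := key i.val i.isLt
    rw [hlast] at h3
    unfold Pool.Agent.Y553.PL.hash
    rw [← h3]
    exact harr
  · intro hc
    unfold Pool.Agent.Y553.PL.hash at hc
    have hk1 : k - 1 < k := by omega
    refine ⟨P.w (fun i => run P.acc z0 q w (i.val + 1)), mem_w P _, ?_, P.α ⟨k - 1, hk1⟩,
      (last_iff P _).2 (by show k - 1 + 1 = k; omega), ?_⟩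
    · intro a ha z hz q' hq x hx y hy hprev h1 h2 h3
      obtain ⟨i, rfl⟩ := ex_a P ha
      obtain ⟨z, rfl⟩ := ex_b P hz
      obtain ⟨q', rfl⟩ := ex_b P hq
      obtain ⟨x, rfl⟩ := ex_b P hx
      obtain ⟨y, rfl⟩ := ex_b P hy
      rw [P.arr_iff] at h1 h2 h3
      have hz' : run P.acc z0 q w i.val = z := by
        rcases hprev with ⟨h4, h5⟩ | ⟨a', h4, h5⟩
        · rw [first_iff] at h4
          rw [h4]
          exact (P.β_bij.injOn (Set.mem_univ _) (Set.mem_univ _) h5).symm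
        · obtain ⟨j, rfl⟩ := ex_a P h4.1
          rw [cons_iff] at h4
          rw [P.arr_iff] at h5
          rw [← h4]
          exact h5
      rw [P.acc_iff, ← h1, ← h2, ← h3, ← hz']
      exact (run_succ P z0 q w i).symm
    · rw [P.arr_iff]
      show run P.acc z0 q w (k - 1 + 1) = c
      rw [Nat.sub_add_cancel hk]
      exact hc

end Pool.Agent.Y340.PL
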